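import Mathlib
import Pool.Agent.H734R3.PG.Family

set_option autoImplicit false

/-!
# Varieties covered by multi-cyclic covers of Calabi-Yau or Fano type are not pseudo-geometrically
hyperbolic
-/

namespace Pool.Agent.Results.MP_5b1cbc_ag.MultiCyclicPointedMaps

open MvPolynomial Pool.Agent.H734R3.LV Pool.Agent.H734R3.PG

universe u

/-- Let `k` be an algebraically closed field of characteristic zero, `n ≥ 1`, `f_1, ..., f_r`
polynomials in `n` variables `x` with coefficients in `k[y_1, ..., y_s]`, `m_i ≥ 2` and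
`deg_x f_i ≤ m_i e_i` with `∑ (m_i - 1) e_i ≤ n + 1`; if equality holds, assume that some `i` with
`e_i ≠ 0` has `m_i` divisible by `3` or `4`, or that the `e_i` with `m_i` even sum up to at least
`2`. If the Zariski closed subset `X` of `P^N(k)` is the target of a dominant rational map from the
total space of the family `{w_i ^ m_i = f_i(x, y)}` of multi-cyclic covers of affine `n`-space
with parameter `y`, and if this map is generically finite on the members of the family, then `X` is
not pseudo-geometrically hyperbolic. -/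
theorem result {k : Type u} [Field k] [IsAlgClosed k] [CharZero k] {N n s r : ℕ} (hn : 1 ≤ n)
    (m : Fin r → ℕ) (hm : ∀ i, 2 ≤ m i)
    (f : Fin r → MvPolynomial (Fin n) (MvPolynomial (Fin s) k)) (e : Fin r → ℕ)
    (hdeg : ∀ i, (f i).totalDegree ≤ m i * e i) (he : ∑ i, (m i - 1) * e i ≤ n + 1)
    (hcy : ∑ i, (m i - 1) * e i = n + 1 →
      (∃ i, e i ≠ 0 ∧ (3 ∣ m i ∨ 4 ∣ m i)) ∨ 2 ≤ ∑ i with 2 ∣ m i, e i)
    (X : Set (PP k N)) (_ : IsZClosed X)
    (Φ : Fin (N + 1) → MvPolynomial (Fin n ⊕ Fin s ⊕ Fin r) k)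
    (D : MvPolynomial (Fin n ⊕ Fin s ⊕ Fin r) k) (hΦ : FamDom m f X Φ D) : ¬ PseudoGeomHyp X :=
  fmain hn m hm f e hdeg he hcy X Φ D hΦ

end Pool.Agent.Results.MP_5b1cbc_ag.MultiCyclicPointedMaps
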